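import Pool.Agent.Lib.SE.CC.Fin

/-!
# The Hodge conjecture for products of Jacobians of very general cyclic covers of the line

THEOREM. For every `p` there is a meagre set `M p` in `ℂ ^ p` such that for `s = (s_1, …, s_p)` outside `M p`
the Hodge conjecture holds for every abelian variety `B` isogenous to `A × G_1 × … × G_N'`, where `A` is of
CM type and the `G_n` (different ones allowed) are as follows.

* The new part of the Jacobian of ANY cyclic covering of the projective line (any degree `m ≥ 2`, any
  ramification) all of whose branch points are in the set `{∞, s_1, …, s_p}`. The point `s` is the same for all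
  these factors. Up to isogeny the Jacobian of a cyclic covering `C → ℙ¹` is the product of the new parts of
  the Jacobians of its quotients, which are cyclic coverings with the same or fewer branch points, so `B` can be
  any product of Jacobians of cyclic (and abelian) coverings of the line branched in `{∞, s_1, …, s_p}`.
* `dim G_n ≤ 2`; or `dim G_n = 3` and `G_n` is isogenous to a product of two abelian varieties of positive
  dimension, or the only imaginary quadratic fields which act on `G_n` are `ℚ(i)` and `ℚ(√-3)`; or `G_n` has real
  multiplication by a totally real field of degree `dim G_n`; or the Hodge group of `G_n` is the symplectic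
  group; or `G_n` is of Picard type (multiplication by `ℚ(√-3)`, `3 ≤ dim ≤ 9`, or by `ℚ(i)`, `3 ≤ dim ≤ 5`, of
  signature `(dim - 1, 1)`) and only the elements of `ℚ(√-3)`, `ℚ(i)` commute with it.

More generally, let `T` be isogenous to `B × J_(j 1) × … × J_(j N)`, where each `J_i` is the new part of the
Jacobian of `y ^ m = ∏_j (x - t_j) ^ b_j`, any `m ≥ 3`, any different `t_j`, any `b_j` such that the curve is
irreducible and branched at all `t_j` and at `∞` (so every cyclic covering of the line, up to the choice of the
coordinate), or of Picard type as above, without hypotheses on endomorphisms or Hodge groups. Every Hodge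
class on `T` which is killed by the Lie algebras `su(H_1(J_i))` (acting diagonally on the factors `J_i`, by `0`
on `B`) is a combination of classes of algebraic cycles. These classes contain all Weil classes of the powers
of `J_i` (for all subfields of `ℚ(ζ_m)`), also twisted by CM abelian varieties.

CONVENTIONS. Abelian varieties `T = V / L` over `ℂ` (`HC.AV`: the complex vector space `T.V`, the lattice `T.L`,
a Riemann form). `Hlg T d`: the elements of `H_d(T, ℂ)`, given by the integrals of the alternating forms
`a_1 ∧ … ∧ a_d`. `AlgC`: the classes of algebraic cycles with complex coefficients: classes `w_*[D / Γ]` of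
holomorphic maps of compact complex manifolds, and of algebraic subsets of products of curves, stable under
homomorphisms, Pontryagin products, cap products with rational `(1,1)`-forms and linear combinations.
-/

set_option autoImplicit false

namespace Pool.Agent.Results.MP_640417_ag.CyclicCovers

open HC HC.CC

/-- **The theorem.** -/
theorem result :
    ∃ M : (p : ℕ) → Set (Fin p → ℂ), (∀ p, IsMeagre (M p)) ∧
    ∀ (p : ℕ) (s : Fin p → ℂ), s ∉ M p →
    ∀ (A B T : AV) (N' : ℕ) (G : Fin N' → AV) (f' : B.V → A.V) (g' : ∀ n, B.V → (G n).V),
      IsCM A → (∀ n, IsGd s (G n)) → IsIs f' g' →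
      ∀ (q N : ℕ) (J : Fin q → AV) (j : Fin N → Fin q) (Z : ∀ i, (J i).V → (J i).V)
        (E : ∀ i, (J i).V → (J i).V → ℝ) (f : T.V → B.V) (g : ∀ n, T.V → (J (j n)).V),
        (∀ i, IsFc (J i) (Z i)) → (∀ i, IsPl (J i) (Z i) (E i)) → IsIs f g →
        ∀ (d : ℕ) (c : Hlg T d), IsHdg c → SUK Z E f g c → AlgC T d c :=
  main

end Pool.Agent.Results.MP_640417_ag.CyclicCovers
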