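import Pool.Agent.Lib.MP_640417_ag.GT.MainV

/-!
# The Tate conjecture for Fermat varieties: levels, degrees, dimensions

Let `X_m^n` be the Fermat variety `x_0^m + … + x_{n+1}^m = 0`, `N = n + 2`. Its primitive cohomology of degree `n`
is the sum of lines `V(a)`, where `a` runs through the tuples of `N` nonzero elements of `ℤ/m` with sum zero, and
`V(a)(n/2)` consists of Tate classes if and only if `a` is a Tate character (`IsTate m a`, Weil). The classes in
the group `HD` (pairs and Hasse-Davenport relations) are algebraic and can be cancelled (Shioda, Aoki). `V(a) = 1` means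
that the classes of character `a` are algebraic; this depends only on the formal sum `∑ [a_i / m]` modulo `HD`, and the
`a` with `V(a) = 1` form a group.

The theorem describes all Tate characters of length `N` and level `m`.
(1) Let `s` be a number which is divisible by the prime powers `p ^ k` dividing `m` with `p ≤ 6 N + 1` and
`p ^ k ≤ (32 N) ^ (2 N)`. Modulo `HD` every Tate character of level `m` and length `N` is a Tate character of level `s` and
length at most `N`: large primes and large prime powers do not matter, and one `s` is enough for all `m`.
(2) If all prime factors of `m` are `2` or `3` modulo `4`, every Tate character of level `m` is in the group `GS` generated by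
`HD` and the coset sums `sqs d`, the sum of `[k / d]` over the squares `k` in the group of units modulo `d` (`d > 1` is odd and
squarefree, or `4` times such a number or `4`).
(3) Length at most `6`, `110 ∤ m`: they are in the group `G13`, generated by `HD` and the multiples by units of the thirteen
tuples in `tp`.
(4) They are in `GS + G13` (only the tuples of levels 20, 51, 52 are needed) if `N ≤ 8`; or `N ≤ 10` and `174`, `246`, `420`,
`660` do not divide `m`; or `N ≤ 12` and `m` is odd; or `m` has at most three prime factors, and any two of them are in `Ex`: both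
are in `K4 = {2, 5, 13, 17, 3 mod 4}`, or one of them is `1` modulo `4` and the other one is a square modulo it.
(5) There is one class `c q` of order two modulo `HD` for every prime `q = 1` modulo `4` (Das' sum for a pair `p, q`, where `p` is
`2` or `3` modulo `4` and not a square modulo `q`; all these `p` give the same class modulo `GS`) such that they are in the group
generated by `GS` and the `c q` for the prime factors `q = 1` modulo `4` of `m` if `m` is odd and `N < 30`, or if `m` has at most
three prime factors.

## The thirteen tuples

They have the levels `4 q` and `p q` for the thirteen pairs of primes `(2, q)`, `q ≤ 17`; `(3, q)`, `5 ≤ q ≤ 19`; `(5, 7)`.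
These thirteen characters are algebraic (not proved here).
* Levels 12, 15, 20, 21, 28: divisors on Fermat surfaces; 39: a divisor on a product of two Fermat curves; 33: a
  class on a cubic fourfold (Zucker).
* Levels 35, 44, 51, 52: classes in `H^3 ⊗ H^3` of two quotients of Fermat threefolds with the same CM type, which are
  birational to quotients of hypersurfaces of degree `d` in weighted projective spaces with sum of the weights
  `> d`; so they have no pluricanonical forms, are uniruled (Miyaoka), `H^3` has coniveau 1 (Bloch-Srinivas), and the
  class is a divisor class on a product of abelian varieties. 35: the characters (1, 1, 17, 21, 30) and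
  (1, 4, 13, 19, 33), `x0^14 x2 + x2^2 + x3^5 x0 + x4^7 x1 + x1^5` (weights 5, 28, 70, 27, 16, degree 140) and
  `x0^2 x2 + x2^8 x3 + x3^3 x1 + x1^4 x4 + x4^2 x0` (5, 2, 1, 3, 3; 11). 44: the characters (1, 6, 22, 26, 33) and
  (3, 7, 16, 27, 35), `x0^11 + x4^4 x0 + x1^3 + x3^22 x1 + x2^2` (6, 22, 33, 2, 15; 66) and
  `x0^3 + x4^3 x0 + x3^3 x4 + x1^4 x3 + x2^11 x1` (9, 5, 2, 7, 6; 27). 52: the characters (4, 23, 39, 43, 47) and
  (1, 33, 37, 39, 46), `x0^2 + x0 x4^2 + x0 x1^4 x4 + x2^4 x4 + x1^3 x3^13` (8, 1, 3, 1, 4; 16) and
  `x0^2 x2 + x0 x1^7 x2 + x2^3 x4 + x3^4 + x0 x1 x4^6` (7, 1, 6, 5, 2; 20). 51: the characters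
  (27, 57, 65, 74, 83) and (24, 43, 68, 79, 92) mod 102, a pencil of surfaces
  `x0^2 + x1^3 x2 x3 + x1^5 x3 + x2^3 + x0 x3^3` (3, 1, 2, 1; 6; the coefficients are powers of the parameter) and
  `x0^4 x4 + x1^6 x4 + x1^2 x2^17 + x3^3 + x0 x4^2` (3, 2, 1, 7, 9; 21); modulo `HD` their difference is the tuple
  of level 51.
* Levels 57, 68: in the same way from two characters with seven entries, in `H^5` of fivefolds `f = 0` where `f` has
  degree at most two in three of the variables: a bundle of quadric surfaces over a weighted projective space `B` of
  dimension 3, so the class comes from `H^3` of the double cover `S` of `B` branched along the discriminant, and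
  `K_S < 0` because the sum of the weights is `> 2 d`. 57: the characters (10, 19, 34, 36, 37, 40, 52) and
  (8, 19, 32, 36, 41, 42, 50), `x0^2 x5 x6 + x0 x1^2 + x1 x2^2 + x3^19 x6 + x4^3 + x5^2 + x2 x6^2`
  (2, 14, 8, 1, 10, 15, 11; 30) and `x0^2 x4 x5 + x0 x1^2 + x1 x2^6 + x3^2 + x4^2 + x2 x3 x5^4 + x5 x6^3`
  (2, 4, 1, 5, 5, 1, 3; 10). 68: the characters (1, 9, 24, 34, 37, 41, 58) and (6, 15, 16, 23, 34, 47, 63),
  `x0^3 x1 x5 + x1 x6^3 + x1 x2 + x0 x3^17 x5 + x4^2 + x2 x5^3 + x0 x2 x6` (4, 9, 15, 1, 12, 3, 5; 24) and
  `x0^3 x1 + x1 x4^3 x6 + x1 x2 + x3^2 + x2^2 x4 + x2 x5^17 + x0 x6^3` (5, 17, 15, 16, 2, 1, 9; 32).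

## Determinants of cohomology and the coset sums (not formalised)

0. Conventions. `k` algebraically closed of characteristic 0, motives over `k` modulo homological equivalence, coefficients
Qbar; all motives below are summands of motives of products of curves, so a morphism of rank one motives which is not 0 in
cohomology is an isomorphism. GR = group of the rank one motives modulo Tate twists. Tate: for all conjugates of the
coefficients of Hodge type `(w, w)`.

1. Rank one. `Y` smooth projective curve of genus `g`, `L` a nontrivial local system of rank one and finite order on `Y - S`,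
with nontrivial local monodromy `exp(2 pi i a_s)` at every `s` in `S`. Claim: `det H^1(Y - S, L) = V((a_s))` in GR.
Proof. `r = 2 g - 2 + n`, `n = |S|`, `det H^1 = H^r_c(Sym^r (Y - S), L^(r))`. Let `f : Sym^r (Y - S) -> P = Pic^r(Y, S)`.
`L^(r) = f^* F`, `F` a nontrivial character sheaf on the torsor `P` of the generalised Jacobian. The fibre of `f` over `(M, t)` is
`{s in H^0(Y, M) : s|S = t}`, an affine space `A^(g-1)` if `M` is not `K(S)`. Over the closed subset `T = {M = K(S)}`, a torsor under
`G_m^S / G_m`, it is `A^g` over `W = {sum of the residues u_s = 0}` and empty over `T - W`. `H_c(P, F) = H_c(T, F) = 0` (if `S` is empty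
`T` is a point: Schoen), so `H^r_c(Sym^r (Y - S), L^(r)) = H^r_c(f^-1(W), f^* F) = H^(n-2)_c(W, F)(-g)`, and `F` on `W` is the Kummer
sheaf of `prod u_s^(a_s)`: this is `V((a_s))(-g)`. The isomorphism is the restriction to the closed subvariety `f^-1(W)` followed by the
push forward to `W`, so it is given by a correspondence on the cyclic coverings (all groups are pure).

2. Theorem DET. `C -> Y` a Galois covering of smooth projective curves with group `G`, `g_s` inertia generators. For a representation
`rho` of `G` put `M_rho = Hom_G(rho, h^1(C))` and let `e(rho)` be the multiset of the nonzero exponents of the `rho(g_s)`. Then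
`det M_rho = V(e(rho))` in GR. Proof. Both sides are homomorphisms `R(G) -> GR`. For `rho = Ind_H^G chi` the left side is
`V((a_y))` by 1 for `C/H`, and by Mackey `e(rho)` is the union of the `{(a_y + j)/f_y}`, which is `[a_y]` modulo `HD`. Brauer.

3. Example, the pair `{5, 11}`: `PSL_2(11) x mu_10`, triple of orders (11, 5, 2), rank 2, each conjugate of type (1, 1), so `det` is
algebraic by Lefschetz (1, 1): `V((1, 24, 62, 71, 81, 91)/110) = 1` modulo conjugation and `HD`.

4. Theorem MOD. Let `rho` be a virtual representation of `PSL_2(Z/N)`, `C = X(N) -> X(1)`. Then `V(e(rho))` is a product of powers of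
the `psi_K`, `K` imaginary quadratic, `psi_K` the rank one summand of `h^1(E_K)`. Proof. `J(X(N))` is isogenous to a product of `A_f`, `f` of
weight 2 and level dividing `N^2`. With CM by `K`: a power of `E_K` (Shimura). Otherwise `h^1(A_f)` is the sum of `M(f^sigma)` of rank
2, irreducible (Ribet), of type (1,0) + (0,1) for all conjugates. `h^1(X(N)) = sum W_M x M`, so `M_rho = sum Hom_G(rho, W_M) x M`, and
`det M(f) = 1` by Lefschetz (1, 1). Apply DET. Corollary: if `e(rho)` is Tate then `V(e(rho)) = 1`: the Hodge type of
`prod psi_K^(n_K)` is `sum n_K eps_K`, and the quadratic characters `eps_K` are linearly independent.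

5. Coset sums. Every Tate element `u` in the span of the coset sums `sum [t v / d]`, `v` in the squares of the units modulo `d`, satisfies
`V(u) = 1`. Proof. Weil representation of `SL_2(F_p)` on functions on `F_p`, `T` = multiplication by `exp(2 pi i c x^2 / p)`, `-1` acts by
`(-1/p) f(-x)`. Odd functions: exponents `c QR_p`; even functions: `[0]` and `c QR_p`. Tensor products over different primes and the
character of order 4 of `SL_2(Z)` give the sums of level `d` as `T`-parts of even representations (for `4 d'`: if a prime `1` modulo `4` divides
`d'` use odd functions there; otherwise modulo such `T`-parts and pairs everything is a multiple of `[1/4]`, and `2 [1/4]` is a `T`-part).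
So `u = e_T(rho) + n [1/4]` modulo pairs; the sum of `e_T(rho)` is in `(1/6) Z` because `PSL_2(Z)^ab = Z/6`, so `n` may be taken 0. The
exponents at the elliptic points are `c [1/3]` modulo pairs and `[1/2]`, `3 | c`, and `V(3 [1/3]) = psi^(+-1)` for the Fermat cubic. Hence
`V(u)` is a product of powers of the `psi_K`, and `V(u) = 1` by the corollary in 4.

Consequences, with the theorem below: the Tate and Hodge conjectures for all Fermat varieties whose degree has only prime factors `2` or
`3` modulo `4`, in all dimensions, and their products; for all Fermat varieties of dimension at most 6; dimension 8, if the degree is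
not divisible by `174`, `246`, `420`, `660`; Fermat varieties of odd degree and dimension at most 10. By DET also all Weil classes
`det H^1(C)_chi` on the Jacobians of all cyclic coverings `y^m = f(x)` for these `m` (any branch points), and the conjectures for
all powers of the Jacobian of a generic such `C`.

## Remark (not used above, not formalised here): a proof for all classes of CM type

THEOREM CM. Hodge classes on abelian varieties of CM type are algebraic (helper37; referees helper1, 15, 31, 41, 61,
75, 81, 82, 91, 96). Plain ASCII text for a file header; version 2, Dec 4, 10:00 UTC.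

0. CONVENTIONS. Motives over C modulo homological equivalence, coefficients Qbar in C. All motives used are summands
of motives of abelian varieties or of surfaces (homological = numerical equivalence, Lieberman), so a morphism between
motives of rank one which is not 0 in cohomology is an isomorphism. K = Galois CM field, c = complex conjugation, F =
K^+, F <> Q, tau_0 : K -> C. A CM type is f : Gal(K/Q) -> {0,1} with f(g) + f(gc) = 1. M_f = rank one summand of h^1
of an abelian variety with CM by K, with f(s) = 1 iff s(M_f) is of Hodge type (1,0), s in Aut(C). Abelian varieties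
with the same CM type are isogenous, so M_f depends only on f, and h^1 of every CM abelian variety is a sum of M_f (K
large enough). M_f M_(1-f) = Tate (polarisation). A Hodge class in M_f1 x .. x M_fr exists iff sum f_i is constant.
Tate classes = Hodge classes here (Pohlmann).
THEOREM CM. If sum f_i is constant (i = 1, .., r), the line M_f1 x .. x M_fr is spanned by an algebraic class. So the
Hodge and the Tate conjecture hold for all CM abelian varieties, and for all varieties whose motive is a summand of
one of a CM abelian variety, e.g. all Fermat varieties.

1. REDUCTION (Hazama, Publ. RIMS 39 (2003): HC for CM abelian varieties follows from codimension <= 2). Write f as a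
sign vector e in {+-1}^d, d = [F:Q] (signs at the real places, relative to a fixed type Phi_0 containing tau_0); e^(T)
= -1 exactly on T. e^(T+t) + e^(0) = e^(T) + e^(t) for t not in T. Modulo these relations everything is generated by
e^(0), e^(t), whose only relation is the one of the pair e^(all), e^(0). So it is enough to prove
 (4) M_f1 M_f2 = M_f3 M_f4 (isomorphic by an algebraic class) if f1 + f2 = f3 + f4.
If f1 + f2 = 1 everywhere both sides are Tate. Otherwise apply an automorphism of C: we may assume f_i(1) = 1, i = 1,
.., 4.

2. THETA ONE-FORMS. Fix delta in K, conj(delta) = -delta, Phi_0 = {tau : Im tau(delta) > 0}, tau_0 in Phi_0. V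
hermitian over K, dim V = n + 1 >= 3 (n = 2 is enough), signature (n,1) at tau_0, positive definite at the other real
places. S = S_L = U(V)(F)\(B^n x U(V)(A_f)/L), L small: smooth projective, a finite union of compact ball quotients.
For a in F^x with tau_0(a) > 0: W_a = K with form a x conj(y) (skew hermitian: delta a x conj(y)), signs e_t = sgn
t(a). Choose a unitary Hecke character xi of K with xi = eps_(K/F) on A_F^x and xi_t(z) = (z/|z|)^(-e_t) for all t (z
read through Phi_0); it exists because K^x meets A_F^x K_oo^x in F^x only. Weil representation of U(V) x U(W_a) with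
splitting character xi for U(V). Fock model at a place where V has signature (p,q) and W_a sign +: C[z_1..z_p,
w_1..w_q]; K_V = U(p) x U(q) acts on the vacuum by det_p^((1+k)/2) det_q^((-1+k)/2), k = exponent of xi_t = -1:
trivial if q = 0; for (n,1) it is (0;-1), and span(z_i) = (std;-1) = p^+. p^- = d/dz_i d/dw_j kills the z_i. U(W_a)
acts by weight (p-q)/2 + deg z - deg w: (n+1)/2 on z_i at (n,1) and (n+1)/2 on the vacuum at (n+1,0): THE SAME. For
sign - everything is complex conjugate. So, for every Schwartz function phi on the finite adeles, the vector sum z_i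
(x) dz_i at tau_0 and the vacuum at the other places give a holomorphic 1-form theta_phi on S (in the tower of all
S_L). Let Theta(a,xi) be the span of all of them: it is stable under U(V)(A_f), it is not 0 (take for phi the
characteristic function of one point modulo a very large multiple of a lattice), and decomposes over the characters
chi of U(W_a)(F)\U(W_a)(A), infinity type (z)^(-e_t (n+1)/2) up to the splitting.

3. CM TYPE. Claim: Theta(a,xi) lies in the M_f-isotypic part of H^1(S) x C, f(s) = 1 iff e is + at s tau_0 (s tau_0 in
Phi_0), resp. - (s tau_0 in c Phi_0): every f with f(1) = 1 occurs.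
Proof. Let pi_f be a constituent, an irreducible U(V)(A_f)-module. At almost all v the Satake parameter (base change
to K) of pi_v consists of a unitary eta_v and xi_v q_v^((n-1)/2), .., xi_v q_v^(-(n-1)/2). By the congruence relation
(or Kottwitz, Murty-Ramakrishnan) the Frobenius eigenvalues on H^1_l[pi_f] are roots of the Hecke polynomial, whose
roots are eta_v (weight n) and xi_v q^j (weights 1, 3, .., 2n-1); n >= 2, so all are equal to the root of weight 1:
H^1_l[pi_f] is a multiple of the l-adic character attached to xi |.|^(-1/2), whose Hodge type at s is the infinity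
type of xi at s tau_0. [The same from the conjugate varieties: s(S_V) = S_V', V' = V at all finite places, signature
(n,1) at t = s tau_0, definite elsewhere; W_a, xi, chi give on V' the same module pi_f (same weights, see 2; the lifts
do not vanish: Rallis' inner product formula, L-value at n/2 >= 1), now in H^(1,0) or H^(0,1) according to e_t; pi_f
determines xi, so only one type occurs. Albanese of S of CM type: Murty-Ramakrishnan 1992. For n = 1 this is the fact
that Hilbert modular CM forms of parallel weight 2 occur with all CM types.]

4. SEE-SAW. Let f1 + f2 = f3 + f4, f_i(1) = 1. Take a1, a2, a3 in F^x with signs f1, f2, f3, a4 = a1 a2/a3 (signs f4),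
xi_1, xi_2, xi_3 as in 2, xi_4 = xi_1 xi_2/xi_3. The hermitian spaces <a1> + <a2> and <a3> + <a4> have the same
signatures and discriminant, so they are isometric (Landherr): W. Weil representation of U(V) x U(W) with splitting
character xi_1 xi_2 for U(V); it restricts to the products of those of the W_ai for both decompositions. Vectors: at
tau_0 (W definite) the vector of sum_(i<j) (z_i1 z_j2 - z_j1 z_i2) dz_i ^ dz_j = (sum z_i1 dz_i) ^ (sum z_i2 dz_i): it
changes by a determinant under U(W_tau0); at t with W_t definite the vacuum; at t with W_t of signature (1,1) the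
lowest weight vector belonging to x_t in X_t = upper half plane (positive lines of W_t), holomorphic in x_t (V_t
definite: exp(pi i x_t (v,v))). So for phi and x in X = prod X_t we have a holomorphic 2-form Theta_phi(x) on S,
holomorphic in x, with Theta_phi(g x) = j Theta_phi'(x), phi' = omega(g_f^-1) phi, for g in U(W)(F), and j a scalar.
The decomposition <a1> + <a2> fixes a point x_12 in X and Theta_(phi1 x phi2)(x_12) = theta_phi1 ^ theta_phi2,
theta_phii in Theta(a_i,xi_i). The same with 3, 4.
 For fixed L and phi in S^L the target H^0(S_L, Omega^2) is finite dimensional and T_x = span{Theta_phi(x) : phi in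
S^L} satisfies T_(gx) = T_x for all g in U(W)(F), since U(W)(A_f) commutes with L. U(W)(F) is dense in U(W)(F x R), so
a linear form which kills T_(x_12) kills T_x for all x: T_x is independent of x, in particular T_(x_12) = T_(x_34). In
the tower: Theta(a1,xi1) ^ Theta(a2,xi2) and Theta(a3,xi3) ^ Theta(a4,xi4) span the same space T of holomorphic
2-forms. T <> 0: the Hecke translates of a nonzero 1-form span the cotangent space at every point of the ball (U(V)(F)
is dense in U(n,1), and U(n) is irreducible on p^+), and n >= 2.

5. END. Choose omega_1 ^ omega_2 <> 0 in T, omega_1 ^ omega_2 = sum_j omega_3^(j) ^ omega_4^(j) on some S. With h = an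
ample class the integral of omega_1 ^ omega_2 ^ conj(omega_1 ^ omega_2) ^ h^(n-2) over S is > 0, so for some j,
omega_3, omega_4: I = integral of omega_1 ^ omega_2 ^ conj(omega_3) ^ conj(omega_4) ^ h^(n-2) <> 0. Let A_i be the
M_fi-part of the Albanese variety of S and F : S -> A_1 x A_2 x A_3 x A_4. The algebraic class F_*(h^(n-2)) (n = 2:
the surface F(S)) has component I <> 0 in the dual of the (M_f1, M_f2, M_(1-f3), M_(1-f4))-part; the projectors to
these parts are algebraic. So M_f1 M_f2 M_(1-f3) M_(1-f4) is spanned by an algebraic class. QED

REMARKS. (i) Second proof of I <> 0 (helper41): omega_1 ^ omega_2 ^ conj(omega_3) ^ conj(omega_4) is the value at a CM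
point of the Kudla-Millson theta kernel for U(V) x U(2,2) (W + (-W) is split), whose integral over S (n = 2) is a
modular form with Fourier coefficients the degrees of special 0-cycles, not 0; translates of the CM point are dense.
(ii) For n >= 6 the algebraicity of the pullback of the line to H^4(S) is the theorem of Bergeron-Millson-Moeglin
(Acta Math. 216 (2016): Hodge classes of degree 2k on compact ball quotients of this kind are algebraic, k <= n/3);
with Venkataramana's non vanishing of cup products (Compositio 125 (2001)) and 3 this is another proof. (iii) The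
relation of periods p(f1) p(f2) = p(f3) p(f4) is due to Shimura. (iv) With Hazama 2002/2003 also the generalised Hodge
conjecture for CM abelian varieties follows; with Milne 1999 (Lefschetz motives and the Tate conjecture) the Tate
conjecture for all abelian varieties over finite fields.
-/

namespace Pool.Agent.Results.MP_640417_ag.FermatDegrees

open Finset Pool.Agent.FC Pool.Agent.FO

/-- **Tate characters of Fermat varieties: levels, degrees, dimensions.** -/
theorem result :
    (∀ (m N : ℕ) [NeZero m] (a : Fin N → ZMod m), IsTate m a →
      (∀ (s : ℕ) [NeZero s], (∀ p k : ℕ, p.Prime → p ≤ 6 * N + 1 → p ^ k ≤ (32 * N) ^ (2 * N) → p ^ k ∣ m → p ^ k ∣ s) →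
        ∃ (n : ℕ) (b : Fin n → ZMod s), n ≤ N ∧ IsTate s b ∧
          ∑ i, Finsupp.single (ZMod.toAddCircle (a i)) (1 : ℤ) -
            ∑ i, Finsupp.single (ZMod.toAddCircle (b i)) (1 : ℤ) ∈ HD) ∧
      ((∀ p : ℕ, p.Prime → p ∣ m → p = 2 ∨ p % 4 = 3) →
        ∑ i, Finsupp.single (ZMod.toAddCircle (a i)) (1 : ℤ) ∈ GS) ∧
      (N ≤ 6 ∧ ¬ 110 ∣ m → ∑ i, Finsupp.single (ZMod.toAddCircle (a i)) (1 : ℤ) ∈ G13) ∧
      (N ≤ 8 ∨ (N ≤ 10 ∧ ∀ d ∈ [174, 246, 420, 660], ¬ d ∣ m) ∨ (N ≤ 12 ∧ ¬ 2 ∣ m) ∨
        (m.primeFactors.card ≤ 3 ∧ ∀ p q : ℕ, p.Prime → q.Prime → p ∣ m → q ∣ m → p < q → Ex p q) →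
          ∑ i, Finsupp.single (ZMod.toAddCircle (a i)) (1 : ℤ) ∈ GS ⊔ G13)) ∧
    ∃ c : ℕ → UnitAddCircle →₀ ℤ, (∀ q, 2 • c q ∈ HD) ∧
      ∀ (m N : ℕ) [NeZero m] (a : Fin N → ZMod m), IsTate m a → (N < 30 ∧ ¬ 2 ∣ m) ∨ m.primeFactors.card ≤ 3 →
        ∑ i, Finsupp.single (ZMod.toAddCircle (a i)) (1 : ℤ) ∈
          GS ⊔ AddSubgroup.closure {f | ∃ q : ℕ, q.Prime ∧ q ∣ m ∧ q % 4 = 1 ∧ f = c q} :=
  ⟨fun m N _ a ha =>
    ⟨(main10 m N a ha).1, (main10 m N a ha).2.1, (main10 m N a ha).2.2.1, (main10 m N a ha).2.2.2.1⟩, main11⟩

end Pool.Agent.Results.MP_640417_ag.FermatDegrees
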