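import Pool.Agent.Lib.TNF.All

/-!
# The Tate conjecture outside a thin set: products of new parts of Jacobians of cyclic covers of the line

THEOREM. Let `p, M ≥ 0`. There are finitely many polynomials `F_1, …, F_n ∈ ℚ[S_1, …, S_p][X]`, irreducible over the field of
rational functions `ℚ(S_1, …, S_p)` (`IrrG`), of positive degree in `X`, and `0 ≠ Δ ∈ ℚ[S_1, …, S_p]` with the following
properties. Call `s ∈ ℂ ^ p` GOOD if `Δ(s) ≠ 0` and all `F_j(s, X)` are irreducible over the field `ℚ(s)` generated by the
coordinates of `s` (`Hil`, `IrrAt`).
(1) If the coordinates of `s` are algebraically independent over `ℚ`, `s` is good. For every `ε > 0` all but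
`O(N ^ (p - 1/2 + ε))` of the points `s ∈ ℤ ^ p` with `|s_j| ≤ N` are good, so almost all integral points are good (the bad
rational points are a thin set).
(2) Let `s` be ANY good point, `k ⊂ ℂ` the algebraic closure of `ℚ(s)`; so `k` is the field of algebraic numbers if the
coordinates of `s` are algebraic numbers, for example for the points in (1). Let `T` be isogenous to a product `J_1 × … × J_N`,
where each `J_n` is (isogenous to) the new part of the Jacobian of a cyclic covering `C_n` of degree `3 ≤ m_n ≤ M` of the projective
line, all of whose branch points are in the set `{∞, s_1, …, s_p}`, with `r_n + 2 ≥ 5` branch points, and `J_n` with the map `γ_n` of the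
curve `C_n` to `J_n` is defined over `k` (`IsBM`). Let `ℓ ≤ M` be a prime and `i ≥ 0`, and assume for every `n`: `J_n` is BALANCED (for every `u` prime
to `m_n` half of the `r_n` forms with the character `u` are of the first kind; `Bal`), or `J_n` is not of CM type (for some `u` the
number `p_u` of forms of the first kind with the character `u` satisfies `0 < p_u < r_n`; `Ndf`) and `r_n > 2 i`. Then every Tate
class in `H_{2i}(T, ℚ_ℓ)(-i) = H^{2(g-i)}(T, ℚ_ℓ)(g-i)`, `g = dim T`, is a `ℚ_ℓ`-linear combination of classes of algebraic cycles.
So Q1 holds in ALL degrees if all factors are balanced, for any number of factors, any multiplicities, any isogenies between the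
factors; these are the cases with exotic (Weil) classes. For algebraically independent `s` this is for all `m_n` and all `ℓ` (take
`M` large; this contains the theorem of NewJacobians, where `s` is outside a meagre set).

CONVENTIONS. Abelian varieties `T = V / L` over `ℂ` (`HC.AV`). `H1 T ℓ = Hom(L, ℚ_ℓ) = H¹(T, ℚ_ℓ)`;
`HL T ℓ d = H_d(T, ℚ_ℓ) = Λ^d V_ℓ(T)`: alternating forms on `H¹(T, ℚ_ℓ)`. `Fix s A`: the automorphisms of `ℂ` which
fix `s` and `A`; for finite sets `A` of numbers algebraic over `ℚ(s)` (`AlgO`) the images of these groups in
`Gal(k / ℚ(s))` are open, and every open subgroup contains one of them. ACTION ON TORSION POINTS: `J_n` is generated by the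
curve, so a torsion point `v` is the image `∑ e_k γ(P_k)` of a divisor of degree `0` of the curve, and
`σ(v) = ∑ e_k γ(σ P_k)` (`GR`); `IsMod` says that this is well defined in `V / L` for `σ ∈ Fix s A`, that is, `J_n` and `γ_n`
are defined over `ℚ(s, A)` (true for suitable `A` for every model over `k`). `IsAct`: the action on
`Hom(T_ℓ(J_n), ℤ_ℓ)`; `IsCh`: the cyclotomic character; `IsTate`: an open subgroup of the Galois group fixes the
class `c` of `H_{2i}(T, ℚ_ℓ)(-i)`; it is enough to know `c` on the pull backs (`IsPb`) of the forms of the `J_n`. `IsAl`: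
`c = ∑ x_k C_k`, `x_k ∈ ℚ_ℓ`, `C_k` rational classes which are combinations of classes of algebraic cycles
(`AlgC`: `ℂ`-combinations of the classes `w_*[D / Γ]` of holomorphic maps of compact complex manifolds to `T` and of
algebraic subsets of products of curves, stable under homomorphisms, Pontryagin products and cap products
with rational `(1,1)`-forms). The exponents `b_j` of the equation `y ^ m = ∏ (x - t_j) ^ b_j` are reduced modulo `m`.

There are no hypotheses: Abel's theorem for the new parts (the action of `Aut(ℂ)` on the torsion points of the new part with the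
minimal lattice), Hilbert's irreducibility theorem with the bound in (1), the specialisation of the Galois action (Frattini
argument of Serre), the theorem of the fixed part, the comparison of Galois action and monodromy, and the algebraicity of the
Hodge classes are proved in Lean. The curves `C_n`, the factors and the cycles are over `k`: cycles on `T` over `ℂ` specialise
to cycles over `k` with the same class.
-/

set_option autoImplicit false

namespace Pool.Agent.Results.MP_640417_ag.NumberFields

open HC HC.CC TATE TNF

/-- **The theorem.** -/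
theorem result :
    ∀ p M : ℕ, ∃ (F : List (Polynomial (MvPolynomial (Fin p) ℚ))) (Δ : MvPolynomial (Fin p) ℚ),
      (∀ P ∈ F, IrrG P ∧ 0 < P.natDegree) ∧ Δ ≠ 0 ∧
      (∀ s : Fin p → ℂ, AlgebraicIndependent ℚ s → Hil F Δ s) ∧
      (∀ ε : ℝ, 0 < ε → ∃ C : ℝ, ∀ N : ℕ, 1 ≤ N →
        ({s : Fin p → ℤ | (∀ i, |s i| ≤ N) ∧ ¬ Hil F Δ fun i => (s i : ℂ)}.ncard : ℝ) ≤
          C * (N : ℝ) ^ ((p : ℝ) - 1 / 2 + ε)) ∧
      ∀ s : Fin p → ℂ, Hil F Δ s →
      ∀ (T : AV) (N : ℕ) (J : Fin N → AV) (γ : ∀ n, Cur (J n)) (g : ∀ n, T.V → (J n).V) (i : ℕ),
        (∀ n, IsBM s M (2 * i) (γ n)) → IsPr g →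
        ∀ (ℓ : ℕ) [Fact ℓ.Prime], ℓ ≤ M → ∀ c : HL T ℓ (2 * i), IsTate s γ g ℓ i c → IsAl c :=
  TNF.main

end Pool.Agent.Results.MP_640417_ag.NumberFields
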