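import Pool.Agent.Lib.MP_640417_ag.Ws.Final

/-!
# Divisor classes, Weil classes, and places which decide

Let `V` be a semisimple `l`-adic representation with the properties of `H¹` of an abelian variety `A` (or of
`H^j` of any variety, `j` odd). `L` is the Lie algebra of the image over the algebraic closure `K` of `ℚ_[l]`.

A Weil class is a Tate class over `K` on a power of `V` which is a product of top forms of irreducible
submodules. A generator of the tame inertia group of a place of semistable reduction acts by `γ` with
`(γ - 1)² = 0`, and the rank of `γ - 1` is the dimension of the toric part of the reduction.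
-/

namespace Pool.Agent.Results.MP_640417_ag.WeilClasses

open Module Pool.Agent.Lib.MP_640417_ag Pool.Agent.Lib.MP_640417_ag.Frob
  Pool.Agent.Lib.MP_640417_ag.Four Pool.Agent.Lib.MP_640417_ag.Ty
  Pool.Agent.Lib.MP_640417_ag.Tg Pool.Agent.Lib.MP_640417_ag.Dfr
  Pool.Agent.Lib.MP_640417_ag.Wn Pool.Agent.Lib.MP_640417_ag.T3
  Pool.Agent.Lib.MP_640417_ag.Ws

/-- **Divisor classes, Weil classes, and places which decide.** (1) No power of `V` has an exotic Tate class
if and only if there is no constituent of type III, the Tate classes of codimension two on the fourth power are
generated by divisor classes and Weil classes, and there is no Weil relation. (2) Without constituents of type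
III it is equivalent that all Tate classes on all powers are generated by divisor classes and Weil classes,
that this holds in codimension two on the fourth power, that the Lie algebra of the image is as large as
possible on every irreducible constituent and there are no twists, and that every irreducible constituent has a
place which decides and there are no twists. (3) Then there are no exotic Tate classes of codimension less than
half of the dimension of every constituent which is not self-dual. (4) If `V` has no constituents of type
IV, then there are no constituents of type III, no twists and no Weil relations. -/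
theorem result (l : ℕ) [Fact l.Prime] {Γ : Type} [Group Γ] [TopologicalSpace Γ]
    [IsTopologicalGroup Γ] [CompactSpace Γ] {V : Type} [AddCommGroup V] [Module ℚ_[l] V]
    [FiniteDimensional ℚ_[l] V] (ρ : H1Rep Γ ℚ_[l] V) (hss : Semisimple ρ)
    (hF : Dense {γ | FrobLike ρ γ}) :
    (NoExotic ρ ↔ NoIII ρ ∧ GenAt l ρ 4 2 ∧ ¬ WeilRel ρ) ∧
    (NoIII ρ → List.TFAE [GenAll l ρ, GenAt l ρ 4 2, BigAll l ρ ∧ NoTwists l ρ,
      PlaceAll l ρ ∧ NoTwists l ρ]) ∧
    (NoIII ρ → GenAll l ρ → LowAll l ρ) ∧
    (RealType ρ → NoIII ρ ∧ NoTwists l ρ ∧ ¬ WeilRel ρ) :=
  final l ρ hss hF

end Pool.Agent.Results.MP_640417_ag.WeilClasses
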